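import Pool.Agent.H15.FamMain

/-! The quotients by the two sides of a maximal frame are not bounded: auxiliary file. -/

set_option linter.unusedSectionVars false

open Module Submodule H15

namespace H9.FO

variable {ι : Type*} [Fintype ι] {E : Type*} [AddCommGroup E] [Module ℝ E]
  [FiniteDimensional ℝ E] {v : ι → E} {A B : Set ι} {m : ℕ}

theorem bdd_mono {a b : ℕ} (hab : a ≤ b) (h : Bdd v a) : Bdd v b :=
  fun X Y hXY => (h X Y hXY).trans hab

private theorem finrank_quot [Nonempty ι] (hF : MaxFrame v m A B) :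
    finrank ℝ (E ⧸ sp v B) + m = A.ncard := by
  have h1 := Submodule.finrank_quotient_add_finrank (sp v B)
  rw [finrank_sp_eq hF.indB] at h1
  have h2 := hF.card
  omega

theorem not_bdd_zero [Nonempty ι] (hF : MaxFrame v m A B) (hA : m < A.ncard) :
    ¬ Bdd ((sp v B).mkQ ∘ v) 0 := by
  intro h
  have h1 := finrank_eq_zero_of_bdd_zero (hF.cos.comp (Submodule.mkQ_surjective (sp v B))) h
    (Classical.arbitrary ι)
  have h2 := finrank_quot hF
  omega

theorem not_bdd_one [Nonempty ι] (hF : MaxFrame v m A B) (hA : m + 1 < A.ncard) :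
    ¬ Bdd ((sp v B).mkQ ∘ v) 1 := by
  intro h
  have h1 := finrank_le_one (hF.cos.comp (Submodule.mkQ_surjective (sp v B))) h
  have h2 := finrank_quot hF
  omega

end H9.FO
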